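import Pool.Agent.Helper63.Ar.Def

/-!
# Arithmetical predicates and functions on primitive recursively coded types
-/

set_option autoImplicit false

namespace Pool.Agent.Helper63.Ar

open FirstOrder FirstOrder.Language Encodable

universe u v

section Defs

variable (L : FirstOrder.Language.{u, v}) [L.Structure ℕ]

/-- an arithmetical predicate on a primitive recursively coded type -/
def ArP {α : Type*} [Primcodable α] (P : α → Prop) : Prop :=
  Df L (fun v : ℕ → ℕ => ∃ a, Encodable.encode a = v 0 ∧ P a)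

/-- an arithmetical function between primitive recursively coded types -/
def ArF {α β : Type*} [Primcodable α] [Primcodable β] (f : α → β) : Prop :=
  ArP L (fun p : α × β => f p.1 = p.2)

end Defs

variable {L : FirstOrder.Language.{u, v}} [L.Structure ℕ] [ArithLang L]

variable {α β γ δ : Type*} [Primcodable α] [Primcodable β] [Primcodable γ] [Primcodable δ]

/-- the codes of elements of a type -/
def rg (α : Type*) [Primcodable α] (n : ℕ) : Prop := ∃ a : α, encode a = n

theorem rg_iff (n : ℕ) : rg α n ↔ encode (decode n : Option α) = n + 1 := by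
  constructor
  · rintro ⟨a, rfl⟩
    rw [encodek]
    rfl
  · intro h
    cases hd : (decode n : Option α) with
    | none => rw [hd] at h; simp at h
    | some a =>
      rw [hd] at h
      refine ⟨a, ?_⟩
      simpa using h

theorem rg_encode (a : α) : rg α (encode a) := ⟨a, rfl⟩

theorem Df.rg (α : Type*) [Primcodable α] {f : (ℕ → ℕ) → ℕ} (hf : DfF L f) :
    Df L (fun v => rg α (f v)) := by
  have h1 : DfF L (fun v : ℕ → ℕ => encode (decode (v 0) : Option α)) :=
    DfF.ofPrimrec (k := fun n => encode (decode n : Option α)) (Primcodable.prim α)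
  have h2 : Df L (fun v : ℕ → ℕ => Ar.rg α (v 0)) :=
    (Df.eqF h1 (DfF.succ (DfF.var 0))).congr fun v => rg_iff _
  exact Df.comp1 (R := fun n => Ar.rg α n) h2 hf

theorem arP_iff {P : α → Prop} :
    ArP L P ↔ ∃ Q : ℕ → Prop, Df L (fun v : ℕ → ℕ => Q (v 0)) ∧ ∀ a, P a ↔ Q (encode a) := by
  constructor
  · intro h
    refine ⟨fun n => ∃ a, Encodable.encode a = n ∧ P a, h, fun a => ⟨fun ha => ⟨a, rfl, ha⟩, ?_⟩⟩
    rintro ⟨b, hb, hP⟩
    rwa [← encode_injective hb]
  · rintro ⟨Q, hQ, h⟩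
    refine Df.congr ((Df.rg α (DfF.var 0)).and hQ) fun v => ?_
    constructor
    · rintro ⟨a, ha, hP⟩
      exact ⟨⟨a, ha⟩, by rw [← ha]; exact (h a).1 hP⟩
    · rintro ⟨⟨a, ha⟩, hq⟩
      exact ⟨a, ha, (h a).2 (by rw [ha]; exact hq)⟩

theorem arF_iff {f : α → β} :
    ArF L f ↔ ∃ g : ℕ → ℕ, DfF L (fun v : ℕ → ℕ => g (v 0)) ∧ ∀ a, g (encode a) = encode (f a) := by
  classical
  constructor
  · intro h
    obtain ⟨Q, hQ, hPQ⟩ := arP_iff.1 h
    let g : ℕ → ℕ := fun n => if h : ∃ a : α, encode a = n then encode (f h.choose) else 0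
    have hg : ∀ a, g (encode a) = encode (f a) := by
      intro a
      have h' : ∃ b : α, encode b = encode a := ⟨a, rfl⟩
      simp only [g]
      rw [dif_pos h']
      rw [encode_injective h'.choose_spec]
    refine ⟨g, ?_, hg⟩
    refine DfF.of_unique (P := fun y v => (rg α (v 0) ∧ rg β y ∧ Q (Nat.pair (v 0) y)) ∨
      (¬ rg α (v 0) ∧ y = 0)) ?_ ?_
    · refine Df.or ((Df.rg α (DfF.var 1)).and ((Df.rg β (DfF.var 0)).and ?_))
        ((Df.rg α (DfF.var 1)).not.and (Df.eqF (DfF.var 0) DfF.zero))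
      exact Df.comp1 (R := Q) hQ (DfF.pair (DfF.var 1) (DfF.var 0))
    · intro y v
      by_cases hr : rg α (v 0)
      · obtain ⟨a, ha⟩ := hr
        constructor
        · rintro rfl
          left
          refine ⟨⟨a, ha⟩, ⟨f a, by rw [← ha, hg]⟩, ?_⟩
          rw [← ha, hg]
          exact (hPQ (a, f a)).1 rfl
        · rintro (⟨_, ⟨b, hb⟩, hq⟩ | ⟨hn, _⟩)
          · rw [← ha, hg, ← hb]
            rw [← ha, ← hb] at hq
            have := (hPQ (a, b)).2 hq
            simp only at this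
            rw [this]
          · exact absurd ⟨a, ha⟩ hn
      · have : g (v 0) = 0 := dif_neg hr
        rw [this]
        constructor
        · intro hy
          exact Or.inr ⟨hr, hy⟩
        · rintro (⟨h1, _⟩ | ⟨_, h1⟩)
          · exact absurd h1 hr
          · exact h1
  · rintro ⟨g, hg, h⟩
    refine Df.congr (((Df.rg α (DfF.fst (DfF.var 0))).and (Df.rg β (DfF.snd (DfF.var 0)))).and
      (Df.eqF (DfF.subF (g := fun y _ => g y) (f := fun v => (v 0).unpair.1) (hg.sub (fun _ => 0))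
        (DfF.fst (DfF.var 0))) (DfF.snd (DfF.var 0)))) fun v => ?_
    constructor
    · rintro ⟨⟨a, b⟩, hp, hf⟩
      rw [← hp, Encodable.encode_prod_val, Nat.unpair_pair]
      simp only at hf
      exact ⟨⟨⟨a, rfl⟩, ⟨b, rfl⟩⟩, by rw [h, hf]⟩
    · rintro ⟨⟨⟨a, ha⟩, ⟨b, hb⟩⟩, hg'⟩
      refine ⟨(a, b), ?_, ?_⟩
      · rw [Encodable.encode_prod_val, ha, hb, Nat.pair_unpair]
      · rw [← ha, ← hb, h] at hg'
        exact encode_injective hg'

/-! predicates -/

omit [ArithLang L] in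
theorem ArP.congr {P Q : α → Prop} (hP : ArP L P) (h : ∀ a, Q a ↔ P a) : ArP L Q := by
  refine Df.congr hP fun v => ?_
  simp only [h]

theorem ArP.not {P : α → Prop} (hP : ArP L P) : ArP L (fun a => ¬ P a) := by
  obtain ⟨Q, hQ, h⟩ := arP_iff.1 hP
  exact arP_iff.2 ⟨fun n => ¬ Q n, hQ.not, fun a => not_congr (h a)⟩

theorem ArP.and {P P' : α → Prop} (hP : ArP L P) (hP' : ArP L P') : ArP L (fun a => P a ∧ P' a) := by
  obtain ⟨Q, hQ, h⟩ := arP_iff.1 hP
  obtain ⟨Q', hQ', h'⟩ := arP_iff.1 hP'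
  exact arP_iff.2 ⟨fun n => Q n ∧ Q' n, hQ.and hQ', fun a => and_congr (h a) (h' a)⟩

theorem ArP.or {P P' : α → Prop} (hP : ArP L P) (hP' : ArP L P') : ArP L (fun a => P a ∨ P' a) := by
  obtain ⟨Q, hQ, h⟩ := arP_iff.1 hP
  obtain ⟨Q', hQ', h'⟩ := arP_iff.1 hP'
  exact arP_iff.2 ⟨fun n => Q n ∨ Q' n, hQ.or hQ', fun a => or_congr (h a) (h' a)⟩

theorem ArP.imp {P P' : α → Prop} (hP : ArP L P) (hP' : ArP L P') : ArP L (fun a => P a → P' a) := by
  obtain ⟨Q, hQ, h⟩ := arP_iff.1 hP
  obtain ⟨Q', hQ', h'⟩ := arP_iff.1 hP'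
  exact arP_iff.2 ⟨fun n => Q n → Q' n, hQ.imp hQ', fun a => imp_congr (h a) (h' a)⟩

theorem ArP.iff {P P' : α → Prop} (hP : ArP L P) (hP' : ArP L P') :
    ArP L (fun a => (P a ↔ P' a)) := by
  obtain ⟨Q, hQ, h⟩ := arP_iff.1 hP
  obtain ⟨Q', hQ', h'⟩ := arP_iff.1 hP'
  exact arP_iff.2 ⟨fun n => (Q n ↔ Q' n), hQ.iff hQ', fun a => iff_congr (h a) (h' a)⟩

theorem ArP.const (p : Prop) : ArP L (fun _ : α => p) :=
  arP_iff.2 ⟨fun _ => p, Df.const p, fun _ => Iff.rfl⟩

theorem ArP.comp {P : β → Prop} (hP : ArP L P) {f : α → β} (hf : ArF L f) :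
    ArP L (fun a => P (f a)) := by
  obtain ⟨Q, hQ, h⟩ := arP_iff.1 hP
  obtain ⟨g, hg, h'⟩ := arF_iff.1 hf
  refine arP_iff.2 ⟨fun n => Q (g n), Df.comp1 (R := Q) hQ hg, fun a => ?_⟩
  show P (f a) ↔ Q (g (encode a))
  rw [h', h]

theorem ArP.ex {P : α → β → Prop} (hP : ArP L (fun p : α × β => P p.1 p.2)) :
    ArP L (fun a => ∃ b, P a b) := by
  obtain ⟨Q, hQ, h⟩ := arP_iff.1 hP
  refine arP_iff.2 ⟨fun n => ∃ m, rg β m ∧ Q (Nat.pair n m), ?_, fun a => ?_⟩
  · exact Df.ex (P := fun m v => rg β m ∧ Q (Nat.pair (v 0) m)) ((Df.rg β (DfF.var 0)).and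
      (Df.comp1 (R := Q) hQ (DfF.pair (DfF.var 1) (DfF.var 0))))
  · constructor
    · rintro ⟨b, hb⟩
      exact ⟨encode b, ⟨b, rfl⟩, (h (a, b)).1 hb⟩
    · rintro ⟨m, ⟨b, rfl⟩, hq⟩
      exact ⟨b, (h (a, b)).2 hq⟩

theorem ArP.all {P : α → β → Prop} (hP : ArP L (fun p : α × β => P p.1 p.2)) :
    ArP L (fun a => ∀ b, P a b) := by
  refine (ArP.ex (P := fun a b => ¬ P a b) hP.not).not.congr fun a => ?_
  push Not
  exact Iff.rfl

/-! functions -/

omit [ArithLang L] in
theorem ArF.congr {f g : α → β} (hf : ArF L f) (h : ∀ a, g a = f a) : ArF L g := by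
  have : g = f := funext h
  rw [this]
  exact hf

theorem ArF.ofPrimrec {f : α → β} (hf : Primrec f) : ArF L f := by
  have h1 : Nat.Primrec (fun n => encode ((decode n : Option α).map f)) := hf
  refine arF_iff.2 ⟨fun n => (encode ((decode n : Option α).map f)).pred, ?_, fun a => ?_⟩
  · exact DfF.ofPrimrec (k := fun n => (encode ((decode n : Option α).map f)).pred)
      (Nat.Primrec.pred.comp h1)
  · simp

theorem ArF.id : ArF L (fun a : α => a) := ArF.ofPrimrec Primrec.id

theorem ArF.const (b : β) : ArF L (fun _ : α => b) := ArF.ofPrimrec (Primrec.const b)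

theorem ArF.fst : ArF L (Prod.fst : α × β → α) := ArF.ofPrimrec Primrec.fst

theorem ArF.snd : ArF L (Prod.snd : α × β → β) := ArF.ofPrimrec Primrec.snd

theorem ArF.comp {f : β → γ} {g : α → β} (hf : ArF L f) (hg : ArF L g) :
    ArF L (fun a => f (g a)) := by
  obtain ⟨k, hk, h⟩ := arF_iff.1 hf
  obtain ⟨l, hl, h'⟩ := arF_iff.1 hg
  refine arF_iff.2 ⟨fun n => k (l n), ?_, fun a => by beta_reduce; rw [h', h]⟩
  exact DfF.subF (g := fun y _ => k y) (f := fun v => l (v 0)) (hk.sub (fun _ => 0)) hl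

theorem ArF.pair {f : α → β} {g : α → γ} (hf : ArF L f) (hg : ArF L g) :
    ArF L (fun a => (f a, g a)) := by
  obtain ⟨k, hk, h⟩ := arF_iff.1 hf
  obtain ⟨l, hl, h'⟩ := arF_iff.1 hg
  refine arF_iff.2 ⟨fun n => Nat.pair (k n) (l n), DfF.pair hk hl, fun a => ?_⟩
  beta_reduce
  rw [Encodable.encode_prod_val, h, h']

theorem ArF.comp₂ {k : β → γ → δ} {f : α → β} {g : α → γ}
    (hk : ArF L (fun p : β × γ => k p.1 p.2)) (hf : ArF L f) (hg : ArF L g) :
    ArF L (fun a => k (f a) (g a)) :=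
  ArF.comp (f := fun p : β × γ => k p.1 p.2) hk (hf.pair hg)

theorem ArP.comp₂ {R : β → γ → Prop} {f : α → β} {g : α → γ}
    (hR : ArP L (fun p : β × γ => R p.1 p.2)) (hf : ArF L f) (hg : ArF L g) :
    ArP L (fun a => R (f a) (g a)) :=
  ArP.comp (P := fun p : β × γ => R p.1 p.2) hR (hf.pair hg)

theorem ArP.eq {f g : α → β} (hf : ArF L f) (hg : ArF L g) : ArP L (fun a => f a = g a) := by
  obtain ⟨k, hk, h⟩ := arF_iff.1 hf
  obtain ⟨l, hl, h'⟩ := arF_iff.1 hg
  refine arP_iff.2 ⟨fun n => k n = l n, Df.eqF hk hl, fun a => ?_⟩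
  beta_reduce
  rw [h, h']
  exact encode_injective.eq_iff.symm

theorem ArP.ofPrimrecPred {P : α → Prop} (hP : PrimrecPred P) : ArP L P := by
  obtain ⟨_, hP⟩ := hP
  refine (ArP.eq (ArF.ofPrimrec hP) (ArF.const true)).congr fun a => ?_
  simp

theorem ArP.ofPrimrecRel {P : α → β → Prop} (hP : PrimrecRel P) :
    ArP L (fun p : α × β => P p.1 p.2) := ArP.ofPrimrecPred hP

theorem ArP.le {f g : α → ℕ} (hf : ArF L f) (hg : ArF L g) : ArP L (fun a => f a ≤ g a) :=
  ArP.comp₂ (R := fun x y : ℕ => x ≤ y) (ArP.ofPrimrecRel Primrec.nat_le) hf hg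

theorem ArP.lt {f g : α → ℕ} (hf : ArF L f) (hg : ArF L g) : ArP L (fun a => f a < g a) :=
  ArP.comp₂ (R := fun x y : ℕ => x < y) (ArP.ofPrimrecRel Primrec.nat_lt) hf hg

theorem ArF.add {f g : α → ℕ} (hf : ArF L f) (hg : ArF L g) : ArF L (fun a => f a + g a) :=
  ArF.comp₂ (k := fun x y : ℕ => x + y) (ArF.ofPrimrec Primrec.nat_add) hf hg

theorem ArF.succ {f : α → ℕ} (hf : ArF L f) : ArF L (fun a => f a + 1) :=
  hf.add (ArF.const 1)

omit [ArithLang L] in
/-- a function defined by an arithmetical relation -/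
theorem ArF.of_unique {P : α → β → Prop} {f : α → β} (hP : ArP L (fun p : α × β => P p.1 p.2))
    (h : ∀ a b, f a = b ↔ P a b) : ArF L f :=
  ArP.congr hP fun _ => h _ _

open Classical in
theorem ArF.ite {P : α → Prop} {f g : α → β} (hP : ArP L P) (hf : ArF L f) (hg : ArF L g) :
    ArF L (fun a => if P a then f a else g a) := by
  have h1 : ArP L (fun p : α × β => P p.1) := hP.comp ArF.fst
  refine ArF.of_unique (P := fun a b => (P a ∧ f a = b) ∨ (¬ P a ∧ g a = b))
    (ArP.or (h1.and (ArP.eq (hf.comp ArF.fst) ArF.snd))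
      (h1.not.and (ArP.eq (hg.comp ArF.fst) ArF.snd))) fun a b => ?_
  split_ifs with h <;> simp [h]

/-- arithmetical choice: least code of a witness -/
theorem skolem [Nonempty β] {P : α → β → Prop} (hP : ArP L (fun p : α × β => P p.1 p.2)) :
    ∃ f : α → β, ArF L f ∧ ∀ a, (∃ b, P a b) → P a (f a) := by
  classical
  obtain ⟨b0⟩ := ‹Nonempty β›
  obtain ⟨Q, hQ, h⟩ := arP_iff.1 hP
  have hex : ∀ a, (∃ b, P a b) → ∃ m, rg β m ∧ Q (Nat.pair (encode a) m) := by
    rintro a ⟨b, hb⟩
    exact ⟨encode b, ⟨b, rfl⟩, (h (a, b)).1 hb⟩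
  let f : α → β := fun a => if hb : ∃ b, P a b then (Nat.find_spec (hex a hb)).1.choose else b0
  have hfc : ∀ a (hb : ∃ b, P a b), encode (f a) = Nat.find (hex a hb) := by
    intro a hb
    simp only [f]
    rw [dif_pos hb]
    exact (Nat.find_spec (hex a hb)).1.choose_spec
  refine ⟨f, ?_, ?_⟩
  · let g : ℕ → ℕ := fun n => if hm : ∃ m, rg β m ∧ Q (Nat.pair n m) then Nat.find hm
      else encode b0
    refine arF_iff.2 ⟨g, ?_, ?_⟩
    · have hQ2 : Df L (fun v : ℕ → ℕ => Q (Nat.pair (v 1) (v 0))) :=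
        Df.comp1 (R := Q) hQ (DfF.pair (DfF.var 1) (DfF.var 0))
      have hQ3 : Df L (fun v : ℕ → ℕ => ∃ m, rg β m ∧ Q (Nat.pair (v 1) m)) :=
        Df.ex (P := fun m v => rg β m ∧ Q (Nat.pair (v 1) m)) ((Df.rg β (DfF.var 0)).and
          (Df.comp1 (R := Q) hQ (DfF.pair (DfF.var 2) (DfF.var 0))))
      refine DfF.find (P := fun y v => (rg β y ∧ Q (Nat.pair (v 0) y)) ∨
        ((¬ ∃ m, rg β m ∧ Q (Nat.pair (v 0) m)) ∧ y = encode b0)) ?_ ?_
      · exact Df.or ((Df.rg β (DfF.var 0)).and hQ2) (hQ3.not.and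
          (Df.eqF (DfF.var 0) (DfF.const _)))
      · intro v
        by_cases hm : ∃ m, rg β m ∧ Q (Nat.pair (v 0) m)
        · have hg : g (v 0) = Nat.find hm := dif_pos hm
          rw [hg]
          refine ⟨Or.inl (Nat.find_spec hm), ?_⟩
          rintro y hy (h1 | h1)
          · exact Nat.find_min hm hy h1
          · exact h1.1 hm
        · have hg : g (v 0) = encode b0 := dif_neg hm
          rw [hg]
          refine ⟨Or.inr ⟨hm, rfl⟩, ?_⟩
          rintro y hy (h1 | h1)
          · exact hm ⟨y, h1⟩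
          · omega
    · intro a
      by_cases hb : ∃ b, P a b
      · rw [hfc a hb]
        exact dif_pos (hex a hb)
      · have h1 : f a = b0 := dif_neg hb
        rw [h1]
        refine dif_neg ?_
        rintro ⟨m, ⟨b, rfl⟩, hq⟩
        exact hb ⟨b, (h (a, b)).2 hq⟩
  · intro a hb
    refine (h (a, f a)).2 ?_
    have := (Nat.find_spec (hex a hb)).2
    rw [← hfc a hb] at this
    exact this

/-- the least number with an arithmetical property -/
theorem ArF.find {P : α → ℕ → Prop} (hP : ArP L (fun p : α × ℕ => P p.1 p.2)) {f : α → ℕ}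
    (h : ∀ a, P a (f a) ∧ ∀ y < f a, ¬ P a y) : ArF L f := by
  refine ArF.of_unique (P := fun a n => P a n ∧ ∀ m, m < n → ¬ P a m) (ArP.and hP ?_) ?_
  · refine ArP.all (P := fun (p : α × ℕ) (m : ℕ) => m < p.2 → ¬ P p.1 m) ?_
    exact (ArP.lt ArF.snd (ArF.snd.comp ArF.fst)).imp
      (ArP.comp (P := fun p : α × ℕ => P p.1 p.2) hP ((ArF.fst.comp ArF.fst).pair ArF.snd)).not
  · intro a n
    constructor
    · rintro rfl
      exact h a
    · rintro ⟨h1, h2⟩
      rcases lt_trichotomy n (f a) with hlt | heq | hgt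
      · exact absurd h1 ((h a).2 n hlt)
      · exact heq.symm
      · exact absurd (h a).1 (h2 _ hgt)

/-! recursion -/

theorem ArF.nat_rec {f : α → β} {g : α → ℕ → β → β} {n : α → ℕ} (hf : ArF L f)
    (hg : ArF L (fun p : α × ℕ × β => g p.1 p.2.1 p.2.2)) (hn : ArF L n) :
    ArF L (fun a => (Nat.rec (motive := fun _ => β) (f a) (fun k ih => g a k ih) (n a) : β)) := by
  obtain ⟨f', hf', h1⟩ := arF_iff.1 hf
  obtain ⟨g', hg', h2⟩ := arF_iff.1 hg
  obtain ⟨n', hn', h3⟩ := arF_iff.1 hn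
  refine arF_iff.2 ⟨fun m => Nat.rec (motive := fun _ => ℕ) (f' m)
    (fun y ih => g' (Nat.pair m (Nat.pair y ih))) (n' m), ?_, ?_⟩
  · refine DfF.rec (f := fun v => f' (v 0)) (g := fun y ih v => g' (Nat.pair (v 0) (Nat.pair y ih)))
      (n := fun v => n' (v 0)) hf' ?_ hn'
    exact DfF.subF (g := fun y _ => g' y) (f := fun v => Nat.pair (v 2) (Nat.pair (v 0) (v 1)))
      (hg'.sub (fun _ => 0)) (DfF.pair (DfF.var 2) (DfF.pair (DfF.var 0) (DfF.var 1)))
  · intro a
    have h3' : n' (encode a) = n a := by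
      rw [h3]
      rfl
    beta_reduce
    rw [h3']
    induction n a with
    | zero => exact h1 a
    | succ k ih =>
      simp only
      rw [ih]
      exact h2 (a, k, _)

theorem ArF.nat_iter {f : α → β} {g : α → β → β} {n : α → ℕ} (hf : ArF L f)
    (hg : ArF L (fun p : α × β => g p.1 p.2)) (hn : ArF L n) :
    ArF L (fun a => (g a)^[n a] (f a)) := by
  refine (ArF.nat_rec (g := fun a _ b => g a b) hf
    (ArF.comp (f := fun p : α × β => g p.1 p.2) (g := fun p : α × ℕ × β => (p.1, p.2.2)) hg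
      (ArF.fst.pair (ArF.snd.comp ArF.snd))) hn).congr fun a => ?_
  induction n a with
  | zero => rfl
  | succ k ih => rw [Function.iterate_succ_apply', ih]

/-- a sequence defined by recursion -/
theorem ArF.seq {f : ℕ → β} {b : β} {g : ℕ → β → β} (hg : ArF L (fun p : ℕ × β => g p.1 p.2))
    (h0 : f 0 = b) (hs : ∀ n, f (n + 1) = g n (f n)) : ArF L f := by
  refine (ArF.nat_rec (α := ℕ) (f := fun _ => b) (g := fun _ n x => g n x) (n := fun n => n)
    (ArF.const b) (ArF.comp (f := fun p : ℕ × β => g p.1 p.2) (g := fun p : ℕ × ℕ × β => p.2) hg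
      ArF.snd) ArF.id).congr fun n => ?_
  induction n with
  | zero => exact h0
  | succ k ih => rw [hs, ih]

theorem ArF.list_foldl {l : α → List β} {f : α → γ} {g : α → γ → β → γ} (hl : ArF L l)
    (hf : ArF L f) (hg : ArF L (fun p : α × γ × β => g p.1 p.2.1 p.2.2)) :
    ArF L (fun a => (l a).foldl (g a) (f a)) := by
  classical
  -- the state is the list of remaining elements together with the value
  let step : α → List β × γ → List β × γ := fun a s =>
    match s.1 with
    | [] => s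
    | b :: r => (r, g a s.2 b)
  have hstep : ArF L (fun p : α × (List β × γ) => step p.1 p.2) := by
    have hg' : ArF L (fun p : α × (List β × γ) × (β × List β) => g p.1 p.2.1.2 p.2.2.1) :=
      ArF.comp (f := fun p : α × γ × β => g p.1 p.2.1 p.2.2)
        (g := fun p : α × (List β × γ) × (β × List β) => (p.1, p.2.1.2, p.2.2.1)) hg
        (ArF.ofPrimrec (Primrec.fst.pair ((Primrec.snd.comp (Primrec.fst.comp Primrec.snd)).pair
          (Primrec.fst.comp (Primrec.snd.comp Primrec.snd)))))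
    refine ArF.of_unique (P := fun (p : α × (List β × γ)) (t : List β × γ) =>
      (p.2.1 = [] ∧ p.2 = t) ∨ ∃ q : β × List β, p.2.1 = q.1 :: q.2 ∧ (q.2, g p.1 p.2.2 q.1) = t)
      ?_ ?_
    · refine ArP.or (ArP.and (ArP.eq (ArF.fst.comp (ArF.snd.comp ArF.fst)) (ArF.const []))
        (ArP.eq (ArF.snd.comp ArF.fst) ArF.snd)) ?_
      refine ArP.ex (P := fun (z : (α × (List β × γ)) × (List β × γ)) (q : β × List β) =>
        z.1.2.1 = q.1 :: q.2 ∧ (q.2, g z.1.1 z.1.2.2 q.1) = z.2) ?_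
      refine ArP.and (ArP.eq (ArF.fst.comp (ArF.snd.comp (ArF.fst.comp ArF.fst)))
        (ArF.ofPrimrec (Primrec.list_cons.comp (Primrec.fst.comp Primrec.snd)
          (Primrec.snd.comp Primrec.snd)))) (ArP.eq ((ArF.snd.comp ArF.snd).pair ?_)
          (ArF.snd.comp ArF.fst))
      exact ArF.comp (f := fun p : α × (List β × γ) × (β × List β) => g p.1 p.2.1.2 p.2.2.1)
        (g := fun z : ((α × (List β × γ)) × (List β × γ)) × (β × List β) =>
          (z.1.1.1, z.1.1.2, z.2)) hg' ((ArF.fst.comp (ArF.fst.comp ArF.fst)).pair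
            ((ArF.snd.comp (ArF.fst.comp ArF.fst)).pair ArF.snd))
    · rintro ⟨a, l, c⟩ ⟨l', c'⟩
      cases l with
      | nil =>
        constructor
        · intro h
          exact Or.inl ⟨rfl, h⟩
        · rintro (⟨_, h⟩ | ⟨q, h, _⟩)
          · exact h
          · exact absurd h (by simp)
      | cons b r =>
        constructor
        · intro h
          exact Or.inr ⟨(b, r), rfl, h⟩
        · rintro (⟨h, _⟩ | ⟨⟨b', r'⟩, h, h'⟩)
          · exact absurd h (by simp)
          · simp only [List.cons.injEq] at h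
            obtain ⟨rfl, rfl⟩ := h
            exact h'
  have h1 := ArF.nat_iter (f := fun a => (l a, f a)) (g := step) (n := fun a => (l a).length)
    (hl.pair hf) hstep (ArF.comp (f := fun l : List β => l.length)
      (ArF.ofPrimrec Primrec.list_length) hl)
  refine (ArF.snd.comp h1).congr fun a => ?_
  have key : ∀ (l : List β) (c : γ), (step a)^[l.length] (l, c) = ([], l.foldl (g a) c) := by
    intro l
    induction l with
    | nil => intro c; rfl
    | cons b r ih =>
      intro c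
      rw [List.length_cons, Function.iterate_succ_apply]
      exact ih (g a c b)
  rw [key]

theorem ArF.list_foldr {l : α → List β} {f : α → γ} {g : α → β → γ → γ} (hl : ArF L l)
    (hf : ArF L f) (hg : ArF L (fun p : α × β × γ => g p.1 p.2.1 p.2.2)) :
    ArF L (fun a => (l a).foldr (g a) (f a)) := by
  refine (ArF.list_foldl (l := fun a => (l a).reverse) (f := f) (g := fun a c b => g a b c)
    (ArF.comp (f := fun l : List β => l.reverse) (ArF.ofPrimrec Primrec.list_reverse) hl) hf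
    (ArF.comp (f := fun p : α × β × γ => g p.1 p.2.1 p.2.2)
      (g := fun p : α × γ × β => (p.1, p.2.2, p.2.1)) hg
      (ArF.fst.pair ((ArF.snd.comp ArF.snd).pair (ArF.fst.comp ArF.snd))))).congr fun a => ?_
  rw [List.foldl_reverse]

theorem ArF.list_rec {l : α → List β} {f : α → γ} {g : α → β → List β → γ → γ} (hl : ArF L l)
    (hf : ArF L f) (hg : ArF L (fun p : α × β × List β × γ => g p.1 p.2.1 p.2.2.1 p.2.2.2)) :
    ArF L (fun a => (List.rec (motive := fun _ => γ) (f a) (fun b t ih => g a b t ih) (l a) : γ)) := by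
  have h1 := ArF.list_foldr (l := l) (f := fun a => (([] : List β), f a))
    (g := fun a b (s : List β × γ) => (b :: s.1, g a b s.1 s.2)) hl ((ArF.const _).pair hf)
    ((ArF.ofPrimrec (Primrec.list_cons.comp (Primrec.fst.comp Primrec.snd)
      (Primrec.fst.comp (Primrec.snd.comp Primrec.snd)))).pair hg)
  refine (ArF.snd.comp h1).congr fun a => ?_
  have key : ∀ l : List β, l.foldr (fun b (s : List β × γ) => (b :: s.1, g a b s.1 s.2))
      (([] : List β), f a) = (l, List.rec (motive := fun _ => γ) (f a) (fun b t ih => g a b t ih) l) := by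
    intro l
    induction l with
    | nil => rfl
    | cons b r ih => rw [List.foldr_cons, ih]
  rw [key]

/-- a function on lists defined by recursion -/
theorem ArF.listSeq {f : List β → γ} {c : γ} {g : β → List β → γ → γ}
    (hg : ArF L (fun p : β × List β × γ => g p.1 p.2.1 p.2.2))
    (h0 : f [] = c) (hs : ∀ b l, f (b :: l) = g b l (f l)) : ArF L f := by
  refine (ArF.list_rec (α := List β) (l := fun l => l) (f := fun _ => c)
    (g := fun _ b l x => g b l x) ArF.id (ArF.const c)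
    (ArF.comp (f := fun p : β × List β × γ => g p.1 p.2.1 p.2.2)
      (g := fun p : List β × β × List β × γ => p.2) hg ArF.snd)).congr fun l => ?_
  induction l with
  | nil => exact h0
  | cons b r ih => rw [hs, ih]

end Pool.Agent.Helper63.Ar
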