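import Mathlib

/-!
# Definable relations of a structure, and arithmetical definability

`Df L P`: the predicate `P` on valuations `ℕ → M` is given by a formula of `L` without parameters.
-/

set_option autoImplicit false

namespace Pool.Agent.Helper63.Ar

open FirstOrder FirstOrder.Language

universe u v w

/-- prepend a value to a valuation -/
def cn {M : Type w} (y : M) (v : ℕ → M) : ℕ → M
  | 0 => y
  | i + 1 => v i

@[simp] theorem cn_zero {M : Type w} (y : M) (v : ℕ → M) : cn y v 0 = y := rfl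
@[simp] theorem cn_succ {M : Type w} (y : M) (v : ℕ → M) (i : ℕ) : cn y v (i + 1) = v i := rfl

section General

variable (L : FirstOrder.Language.{u, v}) {M : Type w} [L.Structure M]

/-- the predicate `P` of valuations is definable without parameters -/
def Df (P : (ℕ → M) → Prop) : Prop := ∃ φ : L.Formula ℕ, ∀ v, φ.Realize v ↔ P v

/-- the function `f` of valuations has a graph definable without parameters -/
def DfF (f : (ℕ → M) → M) : Prop := Df L (fun v => v 0 = f (fun i => v (i + 1)))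

variable {L}

theorem Df.congr {P Q : (ℕ → M) → Prop} (hP : Df L P) (h : ∀ v, Q v ↔ P v) : Df L Q := by
  obtain ⟨φ, hφ⟩ := hP
  exact ⟨φ, fun v => (hφ v).trans (h v).symm⟩

theorem Df.sub {P : (ℕ → M) → Prop} (hP : Df L P) (g : ℕ → ℕ) : Df L (fun v => P (fun i => v (g i))) := by
  obtain ⟨φ, hφ⟩ := hP
  refine ⟨φ.relabel g, fun v => ?_⟩
  rw [Formula.realize_relabel]
  exact hφ _

theorem Df.not {P : (ℕ → M) → Prop} (hP : Df L P) : Df L (fun v => ¬ P v) := by
  obtain ⟨φ, hφ⟩ := hP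
  refine ⟨φ.not, fun v => ?_⟩
  rw [Formula.realize_not, hφ]

theorem Df.and {P Q : (ℕ → M) → Prop} (hP : Df L P) (hQ : Df L Q) : Df L (fun v => P v ∧ Q v) := by
  obtain ⟨φ, hφ⟩ := hP
  obtain ⟨ψ, hψ⟩ := hQ
  refine ⟨φ ⊓ ψ, fun v => ?_⟩
  rw [Formula.realize_inf, hφ, hψ]

theorem Df.or {P Q : (ℕ → M) → Prop} (hP : Df L P) (hQ : Df L Q) : Df L (fun v => P v ∨ Q v) := by
  refine ((hP.not.and hQ.not).not).congr fun v => ?_
  tauto

theorem Df.imp {P Q : (ℕ → M) → Prop} (hP : Df L P) (hQ : Df L Q) : Df L (fun v => P v → Q v) := by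
  refine (hP.not.or hQ).congr fun v => ?_
  tauto

theorem Df.iff {P Q : (ℕ → M) → Prop} (hP : Df L P) (hQ : Df L Q) :
    Df L (fun v => (P v ↔ Q v)) := by
  refine ((hP.imp hQ).and (hQ.imp hP)).congr fun v => ?_
  tauto

theorem Df.const (p : Prop) : Df L (fun _ : ℕ → M => p) := by
  by_cases hp : p
  · exact ⟨⊤, fun v => by simp [hp]⟩
  · exact ⟨⊥, fun v => by simp [hp]⟩

theorem Df.eqv (i j : ℕ) : Df L (fun v : ℕ → M => v i = v j) :=
  ⟨(Term.var i).equal (Term.var j), fun v => by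
    simp⟩

theorem Df.ex {P : M → (ℕ → M) → Prop} (hP : Df L (fun v => P (v 0) (fun i => v (i + 1)))) :
    Df L (fun v => ∃ y, P y v) := by
  obtain ⟨φ, hφ⟩ := hP
  let g : ℕ → ℕ ⊕ Fin 1 := fun i => Nat.casesOn i (Sum.inr 0) (fun j => Sum.inl j)
  refine ⟨(φ.relabel g).iExs (Fin 1), fun v => ?_⟩
  rw [Formula.realize_iExs]
  constructor
  · rintro ⟨u, hu⟩
    rw [Formula.realize_relabel, hφ] at hu
    exact ⟨_, hu⟩
  · rintro ⟨y, hy⟩
    refine ⟨fun _ => y, ?_⟩
    rw [Formula.realize_relabel, hφ]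
    exact hy

theorem Df.all {P : M → (ℕ → M) → Prop} (hP : Df L (fun v => P (v 0) (fun i => v (i + 1)))) :
    Df L (fun v => ∀ y, P y v) := by
  refine ((Df.ex (P := fun y v => ¬ P y v) hP.not).not).congr fun v => ?_
  push Not
  exact Iff.rfl

theorem DfF.congr {f g : (ℕ → M) → M} (hf : DfF L f) (h : ∀ v, g v = f v) : DfF L g := by
  refine Df.congr hf fun v => ?_
  rw [h]

theorem DfF.var (i : ℕ) : DfF L (fun v : ℕ → M => v i) := Df.eqv 0 (i + 1)

theorem DfF.sub {f : (ℕ → M) → M} (hf : DfF L f) (g : ℕ → ℕ) :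
    DfF L (fun v => f (fun i => v (g i))) := by
  refine (Df.sub hf (fun i => Nat.casesOn i 0 (fun j => g j + 1))).congr fun v => ?_
  exact Iff.rfl

theorem Df.subF {P : M → (ℕ → M) → Prop} (hP : Df L (fun v => P (v 0) (fun i => v (i + 1))))
    {f : (ℕ → M) → M} (hf : DfF L f) : Df L (fun v => P (f v) v) := by
  refine (Df.ex (P := fun y v => y = f v ∧ P y v) (Df.and hf hP)).congr fun v => ?_
  constructor
  · intro h
    exact ⟨_, rfl, h⟩
  · rintro ⟨y, rfl, h⟩
    exact h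

theorem DfF.subF {g : M → (ℕ → M) → M} (hg : DfF L (fun v => g (v 0) (fun i => v (i + 1))))
    {f : (ℕ → M) → M} (hf : DfF L f) : DfF L (fun v => g (f v) v) := by
  have h1 : Df L (fun v => v 1 = g (v 0) (fun i => v (i + 1 + 1))) := by
    refine (Df.sub hg (fun i => if i = 0 then 1 else if i = 1 then 0 else i)).congr fun v => ?_
    exact Iff.rfl
  have h2 : DfF L (fun v => f (fun i => v (i + 1))) := hf.sub (· + 1)
  exact Df.subF (P := fun y v => v 0 = g y (fun i => v (i + 1))) h1 h2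

/-- composition with a definable relation in two places -/
theorem Df.comp1 {R : M → Prop} (hR : Df L (fun v => R (v 0))) {f : (ℕ → M) → M} (hf : DfF L f) :
    Df L (fun v => R (f v)) :=
  Df.subF (P := fun y _ => R y) hR hf

theorem Df.comp2 {R : M → M → Prop} (hR : Df L (fun v => R (v 0) (v 1))) {f g : (ℕ → M) → M}
    (hf : DfF L f) (hg : DfF L g) : Df L (fun v => R (f v) (g v)) := by
  refine Df.subF (P := fun y v => R (f v) y) ?_ hg
  exact Df.subF (P := fun y v => R y (v 0)) (f := fun v => f (fun i => v (i + 1)))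
    hR (hf.sub (· + 1))

theorem Df.comp3 {R : M → M → M → Prop} (hR : Df L (fun v => R (v 0) (v 1) (v 2)))
    {f g h : (ℕ → M) → M}
    (hf : DfF L f) (hg : DfF L g) (hh : DfF L h) : Df L (fun v => R (f v) (g v) (h v)) := by
  refine Df.subF (P := fun y v => R (f v) (g v) y) ?_ hh
  refine Df.subF (P := fun y v => R (f (fun i => v (i + 1))) y (v 0))
    (f := fun v => g (fun i => v (i + 1))) ?_ (hg.sub (· + 1))
  exact Df.subF (P := fun y v => R y (v 0) (v 1)) (f := fun v => f (fun i => v (i + 1 + 1)))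
    hR (hf.sub (fun i => i + 1 + 1))

theorem Df.eqF {f g : (ℕ → M) → M} (hf : DfF L f) (hg : DfF L g) : Df L (fun v => f v = g v) :=
  Df.comp2 (R := fun x y => x = y) (Df.eqv 0 1) hf hg

/-- a function of one variable with definable graph -/
theorem DfF.comp1 {k : M → M} (hk : Df L (fun v : ℕ → M => v 0 = k (v 1))) {f : (ℕ → M) → M}
    (hf : DfF L f) : DfF L (fun v => k (f v)) :=
  DfF.subF (g := fun y _ => k y) (f := f) hk hf

theorem DfF.comp2 {k : M → M → M} (hk : Df L (fun v : ℕ → M => v 0 = k (v 1) (v 2)))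
    {f g : (ℕ → M) → M} (hf : DfF L f) (hg : DfF L g) : DfF L (fun v => k (f v) (g v)) := by
  refine DfF.subF (g := fun y v => k (f v) y) ?_ hg
  exact DfF.subF (g := fun y v => k y (v 0)) (f := fun v => f (fun i => v (i + 1)))
    hk (hf.sub (· + 1))

end General

/-! ### Arithmetic -/

/-- a language and a structure on `ℕ` in which addition and multiplication are definable -/
class ArithLang (L : FirstOrder.Language.{u, v}) [L.Structure ℕ] : Prop where
  add : Df L (fun v : ℕ → ℕ => v 0 = v 1 + v 2)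
  mul : Df L (fun v : ℕ → ℕ => v 0 = v 1 * v 2)

section Arith

variable {L : FirstOrder.Language.{u, v}} [L.Structure ℕ] [ArithLang L]

theorem DfF.add {f g : (ℕ → ℕ) → ℕ} (hf : DfF L f) (hg : DfF L g) : DfF L (fun v => f v + g v) :=
  DfF.comp2 ArithLang.add hf hg

theorem DfF.mul {f g : (ℕ → ℕ) → ℕ} (hf : DfF L f) (hg : DfF L g) : DfF L (fun v => f v * g v) :=
  DfF.comp2 ArithLang.mul hf hg

theorem Df.le {f g : (ℕ → ℕ) → ℕ} (hf : DfF L f) (hg : DfF L g) : Df L (fun v => f v ≤ g v) := by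
  refine (Df.ex (P := fun y v => g v = f v + y)
    (Df.eqF (hg.sub (· + 1)) (DfF.add (hf.sub (· + 1)) (DfF.var 0)))).congr fun v => ?_
  exact le_iff_exists_add

theorem Df.lt {f g : (ℕ → ℕ) → ℕ} (hf : DfF L f) (hg : DfF L g) : Df L (fun v => f v < g v) := by
  refine ((Df.le hf hg).and (Df.eqF hf hg).not).congr fun v => ?_
  exact lt_iff_le_and_ne

omit [ArithLang L] in
/-- definition of a function as the unique solution of a definable relation -/
theorem DfF.of_unique {P : ℕ → (ℕ → ℕ) → Prop} {f : (ℕ → ℕ) → ℕ}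
    (hP : Df L (fun v => P (v 0) (fun i => v (i + 1)))) (h : ∀ y v, y = f v ↔ P y v) : DfF L f :=
  Df.congr hP fun _ => h _ _

theorem DfF.zero : DfF L (fun _ : ℕ → ℕ => 0) := by
  refine DfF.of_unique (P := fun y _ => y + y = y)
    (Df.eqF (DfF.add (DfF.var 0) (DfF.var 0)) (DfF.var 0)) fun y v => ?_
  omega

theorem DfF.one : DfF L (fun _ : ℕ → ℕ => 1) := by
  refine DfF.of_unique (P := fun y _ => 0 < y ∧ ∀ z, 0 < z → y ≤ z)
    (Df.and (Df.lt DfF.zero (DfF.var 0))
      (Df.all (P := fun z v => 0 < z → v 0 ≤ z)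
        (Df.imp (Df.lt DfF.zero (DfF.var 0)) (Df.le (DfF.var 1) (DfF.var 0))))) fun y v => ?_
  constructor
  · rintro rfl
    exact ⟨Nat.one_pos, fun z hz => hz⟩
  · rintro ⟨h1, h2⟩
    exact le_antisymm (h2 1 Nat.one_pos) h1

theorem DfF.const (n : ℕ) : DfF L (fun _ : ℕ → ℕ => n) := by
  induction n with
  | zero => exact DfF.zero
  | succ n ih => exact DfF.add ih DfF.one

theorem DfF.succ {f : (ℕ → ℕ) → ℕ} (hf : DfF L f) : DfF L (fun v => f v + 1) :=
  DfF.add hf (DfF.const 1)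

theorem Df.exLT {P : ℕ → (ℕ → ℕ) → Prop} (hP : Df L (fun v => P (v 0) (fun i => v (i + 1))))
    {f : (ℕ → ℕ) → ℕ} (hf : DfF L f) : Df L (fun v => ∃ y, y < f v ∧ P y v) :=
  Df.ex (P := fun y v => y < f v ∧ P y v) (Df.and (Df.lt (DfF.var 0) (hf.sub (· + 1))) hP)

theorem Df.allLT {P : ℕ → (ℕ → ℕ) → Prop} (hP : Df L (fun v => P (v 0) (fun i => v (i + 1))))
    {f : (ℕ → ℕ) → ℕ} (hf : DfF L f) : Df L (fun v => ∀ y, y < f v → P y v) :=
  Df.all (P := fun y v => y < f v → P y v) (Df.imp (Df.lt (DfF.var 0) (hf.sub (· + 1))) hP)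

/-- least witness of a definable relation (`0` if there is none) -/
theorem DfF.find {P : ℕ → (ℕ → ℕ) → Prop} (hP : Df L (fun v => P (v 0) (fun i => v (i + 1))))
    {f : (ℕ → ℕ) → ℕ} (h : ∀ v, P (f v) v ∧ ∀ y < f v, ¬ P y v) : DfF L f := by
  refine DfF.of_unique (P := fun y v => P y v ∧ ∀ z, z < y → ¬ P z v) (Df.and hP ?_) ?_
  · have h1 : Df L (fun v => ¬ P (v 0) (fun i => v (i + 1 + 1))) := by
      refine (hP.not.sub (fun i => if i = 0 then 0 else i + 1)).congr fun v => ?_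
      exact Iff.rfl
    exact Df.allLT (P := fun z v => ¬ P z (fun i => v (i + 1))) h1 (DfF.var 0)
  · intro y v
    constructor
    · rintro rfl
      exact h v
    · rintro ⟨h1, h2⟩
      rcases lt_trichotomy y (f v) with hlt | heq | hgt
      · exact absurd h1 ((h v).2 y hlt)
      · exact heq
      · exact absurd (h v).1 (h2 _ hgt)

/-! pairing -/

theorem Df.pairRel : Df L (fun v : ℕ → ℕ => v 0 = Nat.pair (v 1) (v 2)) := by
  have hlt : Df L (fun v : ℕ → ℕ => v 1 < v 2) := Df.lt (DfF.var 1) (DfF.var 2)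
  have h1 : Df L (fun v : ℕ → ℕ => v 0 = v 2 * v 2 + v 1) :=
    Df.eqF (DfF.var 0) (DfF.add (DfF.mul (DfF.var 2) (DfF.var 2)) (DfF.var 1))
  have h2 : Df L (fun v : ℕ → ℕ => v 0 = v 1 * v 1 + v 1 + v 2) :=
    Df.eqF (DfF.var 0) (DfF.add (DfF.add (DfF.mul (DfF.var 1) (DfF.var 1)) (DfF.var 1)) (DfF.var 2))
  refine ((hlt.and h1).or (hlt.not.and h2)).congr fun v => ?_
  unfold Nat.pair
  split_ifs with h <;> simp [h]

theorem DfF.pair {f g : (ℕ → ℕ) → ℕ} (hf : DfF L f) (hg : DfF L g) :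
    DfF L (fun v => Nat.pair (f v) (g v)) := DfF.comp2 Df.pairRel hf hg

theorem DfF.fst {f : (ℕ → ℕ) → ℕ} (hf : DfF L f) : DfF L (fun v => (f v).unpair.1) := by
  refine DfF.of_unique (P := fun y v => ∃ z, f v = Nat.pair y z)
    (Df.ex (P := fun z v => f (fun i => v (i + 1)) = Nat.pair (v 0) z)
      (Df.eqF (hf.sub (fun i => i + 1 + 1)) (DfF.pair (DfF.var 1) (DfF.var 0)))) fun y v => ?_
  constructor
  · rintro rfl
    exact ⟨(f v).unpair.2, (Nat.pair_unpair _).symm⟩
  · rintro ⟨z, hz⟩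
    rw [hz, Nat.unpair_pair]

theorem DfF.snd {f : (ℕ → ℕ) → ℕ} (hf : DfF L f) : DfF L (fun v => (f v).unpair.2) := by
  refine DfF.of_unique (P := fun y v => ∃ z, f v = Nat.pair z y)
    (Df.ex (P := fun z v => f (fun i => v (i + 1)) = Nat.pair z (v 0))
      (Df.eqF (hf.sub (fun i => i + 1 + 1)) (DfF.pair (DfF.var 0) (DfF.var 1)))) fun y v => ?_
  constructor
  · rintro rfl
    exact ⟨(f v).unpair.1, (Nat.pair_unpair _).symm⟩
  · rintro ⟨z, hz⟩
    rw [hz, Nat.unpair_pair]

theorem DfF.mod1 {f g : (ℕ → ℕ) → ℕ} (hf : DfF L f) (hg : DfF L g) :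
    DfF L (fun v => f v % (g v + 1)) := by
  refine DfF.of_unique (P := fun y v => y < g v + 1 ∧ ∃ z, f v = (g v + 1) * z + y)
    (Df.and (Df.lt (DfF.var 0) (DfF.succ (hg.sub (· + 1))))
      (Df.ex (P := fun z v => f (fun i => v (i + 1)) = (g (fun i => v (i + 1)) + 1) * z + v 0)
        (Df.eqF (hf.sub (fun i => i + 1 + 1)) (DfF.add (DfF.mul (DfF.succ (hg.sub (fun i => i + 1 + 1)))
          (DfF.var 0)) (DfF.var 1))))) fun y v => ?_
  constructor
  · rintro rfl
    exact ⟨Nat.mod_lt _ (Nat.succ_pos _), f v / (g v + 1), (Nat.div_add_mod _ _).symm⟩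
  · rintro ⟨h1, z, hz⟩
    rw [hz, Nat.mul_add_mod, Nat.mod_eq_of_lt h1]

theorem DfF.beta {f g : (ℕ → ℕ) → ℕ} (hf : DfF L f) (hg : DfF L g) :
    DfF L (fun v => Nat.beta (f v) (g v)) := by
  unfold Nat.beta
  exact DfF.mod1 (DfF.fst hf) (DfF.mul (DfF.succ hg) (DfF.snd hf))

/-! primitive recursion -/

theorem DfF.rec {f : (ℕ → ℕ) → ℕ} {g : ℕ → ℕ → (ℕ → ℕ) → ℕ} {n : (ℕ → ℕ) → ℕ}
    (hf : DfF L f) (hg : DfF L (fun v => g (v 0) (v 1) (fun i => v (i + 1 + 1)))) (hn : DfF L n) :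
    DfF L (fun v => Nat.rec (motive := fun _ => ℕ) (f v) (fun y ih => g y ih v) (n v)) := by
  refine DfF.of_unique (P := fun y v => ∃ c, Nat.beta c 0 = f v ∧
    (∀ k, k < n v → Nat.beta c (k + 1) = g k (Nat.beta c k) v) ∧ Nat.beta c (n v) = y) ?_ ?_
  · refine Df.ex (P := fun c v => Nat.beta c 0 = f (fun i => v (i + 1)) ∧
      (∀ k, k < n (fun i => v (i + 1)) → Nat.beta c (k + 1) =
        g k (Nat.beta c k) (fun i => v (i + 1))) ∧ Nat.beta c (n (fun i => v (i + 1))) = v 0) ?_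
    refine Df.and ?_ (Df.and ?_ ?_)
    · exact Df.eqF (DfF.beta (DfF.var 0) DfF.zero) (hf.sub (fun i => i + 1 + 1))
    · refine Df.allLT (P := fun k v => Nat.beta (v 0) (k + 1) = g k (Nat.beta (v 0) k)
        (fun i => v (i + 1 + 1))) ?_ (hn.sub (fun i => i + 1 + 1))
      refine Df.eqF (DfF.beta (DfF.var 1) (DfF.succ (DfF.var 0))) ?_
      refine DfF.subF (g := fun x v => g (v 0) x (fun i => v (i + 1 + 1 + 1)))
        (f := fun v => Nat.beta (v 1) (v 0)) ?_ (DfF.beta (DfF.var 1) (DfF.var 0))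
      exact hg.sub (fun i => if i = 0 then 1 else if i = 1 then 0 else i + 2)
    · exact Df.eqF (DfF.beta (DfF.var 0) (hn.sub (fun i => i + 1 + 1))) (DfF.var 1)
  · intro y v
    set r : ℕ → ℕ := fun m => Nat.rec (motive := fun _ => ℕ) (f v) (fun y ih => g y ih v) m with hr
    constructor
    · intro hy
      let l : List ℕ := (List.range (n v + 1)).map r
      have hl : l.length = n v + 1 := by simp [l]
      have hb : ∀ k, k ≤ n v → Nat.beta (Nat.unbeta l) k = r k := by
        intro k hk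
        have := Nat.beta_unbeta_coe l ⟨k, by omega⟩
        simpa [l] using this
      refine ⟨Nat.unbeta l, ?_, ?_, ?_⟩
      · exact hb 0 (Nat.zero_le _)
      · intro k hk
        rw [hb (k + 1) hk, hb k hk.le]
      · rw [hb _ le_rfl]
        exact hy.symm
    · rintro ⟨c, h0, h1, h2⟩
      have hb : ∀ k, k ≤ n v → Nat.beta c k = r k := by
        intro k
        induction k with
        | zero => intro _; exact h0
        | succ k ih =>
          intro hk
          rw [h1 k hk, ih (Nat.le_of_succ_le hk)]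
      rw [← h2, hb _ le_rfl]

/-- every primitive recursive function is definable -/
theorem DfF.ofPrimrec {k : ℕ → ℕ} (hk : Nat.Primrec k) : DfF L (fun v => k (v 0)) := by
  induction hk with
  | zero => exact DfF.zero
  | succ => exact DfF.succ (DfF.var 0)
  | left => exact DfF.fst (DfF.var 0)
  | right => exact DfF.snd (DfF.var 0)
  | pair _ _ hf hg => exact DfF.pair hf hg
  | @comp f g _ _ hf hg =>
    exact DfF.subF (L := L) (g := fun y _ => f y) (f := fun v => g (v 0)) (hf.sub (fun _ => 0)) hg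
  | @prec f g _ _ hf hg =>
    refine DfF.congr (DfF.rec (f := fun v => f ((v 0).unpair.1))
      (g := fun y ih v => g (Nat.pair ((v 0).unpair.1) (Nat.pair y ih)))
      (n := fun v => (v 0).unpair.2) ?_ ?_ (DfF.snd (DfF.var 0))) fun v => rfl
    · exact DfF.subF (g := fun y _ => f y) (f := fun v => (v 0).unpair.1)
        (hf.sub (fun _ => 0)) (DfF.fst (DfF.var 0))
    · exact DfF.subF (g := fun y _ => g y)
        (f := fun v => Nat.pair ((v 2).unpair.1) (Nat.pair (v 0) (v 1)))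
        (hg.sub (fun _ => 0)) (DfF.pair (DfF.fst (DfF.var 2)) (DfF.pair (DfF.var 0) (DfF.var 1)))

end Arith

end Pool.Agent.Helper63.Ar
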